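import Mathlib

set_option autoImplicit false

namespace Pool.Agent.Helper510.FP

open Pointwise Bornology

variable {X : Type*} [NormedAddCommGroup X] [NormedSpace ℝ X]

lemma bddAbove_image {S : Set X} (hS : IsBounded S) (φ : X →L[ℝ] ℝ) : BddAbove (φ '' S) := by
  obtain ⟨R, hR⟩ := hS.exists_norm_le
  refine ⟨‖φ‖ * R, ?_⟩
  rintro _ ⟨s, hs, rfl⟩
  calc φ s ≤ |φ s| := le_abs_self _
    _ = ‖φ s‖ := rfl
    _ ≤ ‖φ‖ * ‖s‖ := φ.le_opNorm s
    _ ≤ ‖φ‖ * R := mul_le_mul_of_nonneg_left (hR s hs) (norm_nonneg _)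

lemma isBounded_left {S L : Set X} (hL : L.Nonempty) (hb : IsBounded (S + L)) : IsBounded S := by
  obtain ⟨l, hl⟩ := hL
  obtain ⟨R, hR⟩ := hb.exists_norm_le
  refine (isBounded_iff_forall_norm_le).2 ⟨R + ‖l‖, fun s hs => ?_⟩
  have h1 := hR (s + l) (Set.add_mem_add hs hl)
  calc ‖s‖ = ‖(s + l) - l‖ := by simp
    _ ≤ ‖s + l‖ + ‖l‖ := norm_sub_le _ _
    _ ≤ R + ‖l‖ := by linarith

lemma isBounded_right {S L : Set X} (hS : S.Nonempty) (hb : IsBounded (S + L)) : IsBounded L := by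
  rw [add_comm] at hb
  exact isBounded_left hS hb

/-- support functions: cancellation of a common summand -/
lemma sup_le {S S' L : Set X} (hS : S.Nonempty) (hS' : S'.Nonempty) (hL : L.Nonempty)
    (hb : IsBounded (S + L)) (hb' : IsBounded (S' + L)) (φ : X →L[ℝ] ℝ) (hφ : ‖φ‖ ≤ 1) :
    sSup (φ '' S) ≤ sSup (φ '' S') + Metric.hausdorffDist (S + L) (S' + L) := by
  have hBS' := bddAbove_image (isBounded_left hL hb') φ
  have hBL := bddAbove_image (isBounded_right hS hb) φ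
  have hfin : Metric.hausdorffEDist (S + L) (S' + L) ≠ ⊤ :=
    Metric.hausdorffEDist_ne_top_of_nonempty_of_bounded (hS.add hL) (hS'.add hL) hb hb'
  refine le_of_forall_pos_le_add fun ε hε => ?_
  obtain ⟨_, ⟨s, hs, rfl⟩, hs1⟩ := exists_lt_of_lt_csSup (hS.image φ)
    (show sSup (φ '' S) - ε / 3 < sSup (φ '' S) by linarith)
  obtain ⟨_, ⟨l, hl, rfl⟩, hl1⟩ := exists_lt_of_lt_csSup (hL.image φ)
    (show sSup (φ '' L) - ε / 3 < sSup (φ '' L) by linarith)
  obtain ⟨y, hy, hy1⟩ := Metric.exists_dist_lt_of_hausdorffDist_lt (x := s + l)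
    (Set.add_mem_add hs hl)
    (show Metric.hausdorffDist (S + L) (S' + L) <
      Metric.hausdorffDist (S + L) (S' + L) + ε / 3 by linarith) hfin
  obtain ⟨s', hs', l', hl', rfl⟩ := hy
  have h1 : φ s' ≤ sSup (φ '' S') := le_csSup hBS' ⟨s', hs', rfl⟩
  have h2 : φ l' ≤ sSup (φ '' L) := le_csSup hBL ⟨l', hl', rfl⟩
  have h3 : φ ((s + l) - (s' + l')) ≤ ‖(s + l) - (s' + l')‖ := by
    calc φ ((s + l) - (s' + l')) ≤ |φ ((s + l) - (s' + l'))| := le_abs_self _
      _ = ‖φ ((s + l) - (s' + l'))‖ := rfl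
      _ ≤ ‖φ‖ * ‖(s + l) - (s' + l')‖ := φ.le_opNorm _
      _ ≤ 1 * ‖(s + l) - (s' + l')‖ := mul_le_mul_of_nonneg_right hφ (norm_nonneg _)
      _ = ‖(s + l) - (s' + l')‖ := one_mul _
  rw [← dist_eq_norm] at h3
  simp only [map_sub, map_add] at h3
  linarith

/-- for a set symmetric about `c` -/
lemma sup_neg {S : Set X} (c : X) (hc : ∀ s ∈ S, (2 : ℝ) • c - s ∈ S) (hS : S.Nonempty)
    (hb : IsBounded S) (φ : X →L[ℝ] ℝ) :
    sSup ((-φ) '' S) = sSup (φ '' S) - 2 * φ c := by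
  have hB := bddAbove_image hb φ
  have hB' := bddAbove_image hb (-φ)
  apply le_antisymm
  · apply csSup_le (hS.image _)
    rintro _ ⟨s, hs, rfl⟩
    have := le_csSup hB ⟨_, hc s hs, rfl⟩
    simp only [map_sub, map_smul, smul_eq_mul] at this
    simp only [ContinuousLinearMap.neg_apply]
    linarith
  · rw [sub_le_iff_le_add]
    apply csSup_le (hS.image _)
    rintro _ ⟨s, hs, rfl⟩
    have h0 : (-φ) ((2 : ℝ) • c - s) ≤ sSup ((-φ) '' S) := le_csSup hB' ⟨_, hc s hs, rfl⟩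
    have h1 : (-φ) ((2 : ℝ) • c - s) = -(2 * φ c - φ s) := by
      rw [ContinuousLinearMap.neg_apply, map_sub, map_smul, smul_eq_mul]
    rw [h1] at h0
    linarith

/-- centres are at most as far apart as the sets -/
theorem center_dist {S S' L : Set X} (c c' : X) (hc : ∀ s ∈ S, (2 : ℝ) • c - s ∈ S)
    (hc' : ∀ s ∈ S', (2 : ℝ) • c' - s ∈ S') (hS : S.Nonempty) (hS' : S'.Nonempty)
    (hL : L.Nonempty) (hb : IsBounded (S + L)) (hb' : IsBounded (S' + L)) :
    dist c c' ≤ Metric.hausdorffDist (S + L) (S' + L) := by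
  rw [dist_eq_norm]
  obtain ⟨φ, hφ, hφ1⟩ := exists_dual_vector'' ℝ (c - c')
  have hφ1' : φ (c - c') = ‖c - c'‖ := by simpa using hφ1
  have h1 := sup_le hS hS' hL hb hb' φ hφ
  have h2 := sup_le hS' hS hL hb' hb (-φ) (by simpa using hφ)
  rw [sup_neg c' hc' hS' (isBounded_left hL hb'), sup_neg c hc hS (isBounded_left hL hb),
    Metric.hausdorffDist_comm] at h2
  have h3 : φ (c - c') = φ c - φ c' := map_sub _ _ _
  rw [← hφ1', h3]
  linarith

end Pool.Agent.Helper510.FP
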